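import Mathlib

/-!
# Chains of order type `ω + ω*` in the Weihrauch degrees have intermediate degrees

Let `f 0 < f 1 < … < h 1 < h 0`. Fix an index `c n m` of a reduction of `f n` to `h m`, for all `n` and
`m`. An instance of `g` is an instance `x` of some `f n` together with the finite list
`c n 0, …, c n n`; its solutions are those of `f n` at `x`. The list is a finite object, so
`f n ≤ g`. To reduce `g` to `h m` look up the index `c n m` in the list if `m ≤ n`, and in a finite
table which depends only on `m` if `n < m`.
-/

set_option autoImplicit false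

namespace Pool.Agent.Results.MP_2d238a_lc.Intermediate

open Encodable

/-- A problem: a partial multivalued function on Baire space; `f p` is the set of the admissible
outputs for the instance `p`, and the domain of `f` is the set of all `p` with `f p ≠ ∅`. -/
abbrev Problem := (ℕ → ℕ) → Set (ℕ → ℕ)

/-- The finite sequence `p 0, …, p (k - 1)`. -/
def pre (p : ℕ → ℕ) (k : ℕ) : List ℕ := (List.range k).map p

/-- The function `a` on finite sequences computes `q` from `p`: at every `n` it outputs a value when
it is given a sufficiently long prefix of `p`, and each of the values which it outputs at `n` on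
prefixes of `p` is `q n`. -/
def Computes (a : List ℕ × ℕ → Option ℕ) (p q : ℕ → ℕ) : Prop :=
  (∀ n, ∃ k, (a (pre p k, n)).isSome) ∧ ∀ n k v, a (pre p k, n) = some v → v = q n

/-- The pair `⟨p, q⟩` of two points of Baire space. -/
def pair (p q : ℕ → ℕ) : ℕ → ℕ := fun n => if n % 2 = 0 then p (n / 2) else q (n / 2)

/-- Weihrauch reducibility `f ≤_W g`: there are two computable functions `a` and `b` on finite
sequences, which compute the partial maps `Φ` and `Ψ`, such that for every `p` in the domain of `f`
the value `z = Φ p` is defined and lies in the domain of `g`, and for every `q ∈ g z` the value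
`Ψ ⟨p, q⟩` is defined and lies in `f p`. -/
def WLE (f g : Problem) : Prop :=
  ∃ a b : List ℕ × ℕ → Option ℕ, Computable a ∧ Computable b ∧
    ∀ p, (f p).Nonempty → ∃ z, Computes a p z ∧ (g z).Nonempty ∧
      ∀ q ∈ g z, ∃ r ∈ f p, Computes b (pair p q) r

/-- Strict Weihrauch reducibility. -/
def WLT (f g : Problem) : Prop := WLE f g ∧ ¬ WLE g f

/-! ### The universal function on finite sequences -/

/-- Run the `c`-th partial recursive function on the prefixes of `σ` for `σ.length` steps. -/
def univ (c : ℕ) (x : List ℕ × ℕ) : Option ℕ :=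
  ((List.range (x.1.length + 1)).filterMap fun j =>
    ((Nat.Partrec.Code.evaln x.1.length (Denumerable.ofNat Nat.Partrec.Code c)
      (encode (x.1.take j, x.2))).bind fun w => (decode (α := Option ℕ) w).getD none)).head?

theorem primrec_univ : Primrec fun y : ℕ × (List ℕ × ℕ) => univ y.1 y.2 := by
  have h1 : Primrec fun z : (ℕ × (List ℕ × ℕ)) × ℕ =>
      Nat.Partrec.Code.evaln z.1.2.1.length (Denumerable.ofNat Nat.Partrec.Code z.1.1)
        (encode (z.1.2.1.take z.2, z.1.2.2)) := by
    refine Nat.Partrec.Code.primrec_evaln.comp (Primrec.pair (Primrec.pair ?_ ?_) ?_)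
    · exact Primrec.list_length.comp (Primrec.fst.comp (Primrec.snd.comp Primrec.fst))
    · exact (Primrec.ofNat _).comp (Primrec.fst.comp Primrec.fst)
    · refine Primrec.encode.comp (Primrec.pair ?_ ?_)
      · exact Primrec.list_take.comp Primrec.snd
          (Primrec.fst.comp (Primrec.snd.comp Primrec.fst))
      · exact Primrec.snd.comp (Primrec.snd.comp Primrec.fst)
  refine Primrec.list_head?.comp (Primrec.listFilterMap ?_ ?_)
  · exact Primrec.list_range.comp (Primrec.succ.comp (Primrec.list_length.comp
      (Primrec.fst.comp Primrec.snd)))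
  · refine Primrec.option_bind h1 ?_
    exact Primrec.option_getD.comp ((Primrec.decode (α := Option ℕ)).comp Primrec.snd)
      (Primrec.const none)

theorem exists_index {a : List ℕ × ℕ → Option ℕ} (ha : Computable a) :
    ∃ c : ℕ, ∀ x, encode (a x) ∈ (Denumerable.ofNat Nat.Partrec.Code c).eval (encode x) := by
  obtain ⟨c, hc⟩ := Nat.Partrec.Code.exists_code.1 ha
  refine ⟨encode c, fun x => ?_⟩
  rw [Denumerable.ofNat_encode, hc]
  simp only [encodek, Part.coe_some, Part.bind_some, PFun.coe_val, Part.map_some,
    Part.mem_some_iff]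

theorem pre_take (p : ℕ → ℕ) {j k : ℕ} (h : j ≤ k) : (pre p k).take j = pre p j := by
  unfold pre
  rw [← List.map_take, List.take_range, min_eq_left h]

theorem length_pre (p : ℕ → ℕ) (k : ℕ) : (pre p k).length = k := by simp [pre]

theorem computes_univ {a : List ℕ × ℕ → Option ℕ} {c : ℕ}
    (hc : ∀ x, encode (a x) ∈ (Denumerable.ofNat Nat.Partrec.Code c).eval (encode x))
    {p q : ℕ → ℕ} (h : Computes a p q) : Computes (univ c) p q := by
  -- every value which is found is a value of `a`
  have key : ∀ k j n K w, j ≤ k →
      w ∈ Nat.Partrec.Code.evaln K (Denumerable.ofNat Nat.Partrec.Code c)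
        (encode ((pre p k).take j, n)) → w = encode (a (pre p j, n)) := by
    intro k j n K w hj hw
    rw [pre_take p hj] at hw
    exact Part.mem_unique (Nat.Partrec.Code.evaln_sound hw) (hc _)
  constructor
  · intro n
    obtain ⟨k0, hk0⟩ := h.1 n
    obtain ⟨v, hv⟩ := Option.isSome_iff_exists.1 hk0
    obtain ⟨K, hK⟩ := Nat.Partrec.Code.evaln_complete.1 (hc (pre p k0, n))
    refine ⟨max K k0, ?_⟩
    rw [univ, List.isSome_head?]
    apply List.ne_nil_of_mem (a := v)
    rw [List.mem_filterMap]
    refine ⟨k0, ?_, ?_⟩
    · rw [List.mem_range, length_pre]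
      exact Nat.lt_succ_of_le (le_max_right _ _)
    · rw [length_pre, pre_take p (le_max_right _ _)]
      have := Nat.Partrec.Code.evaln_mono (le_max_left K k0) hK
      rw [Option.mem_def] at this
      rw [this, Option.bind_some, encodek, hv]
      rfl
  · intro n k v hv
    have hmem : v ∈ ((List.range ((pre p k, n).1.length + 1)).filterMap fun j =>
      ((Nat.Partrec.Code.evaln (pre p k, n).1.length (Denumerable.ofNat Nat.Partrec.Code c)
        (encode ((pre p k, n).1.take j, (pre p k, n).2))).bind
          fun w => (decode (α := Option ℕ) w).getD none)) := List.mem_of_head? hv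
    rw [List.mem_filterMap] at hmem
    obtain ⟨j, hj, hj'⟩ := hmem
    simp only [length_pre, List.mem_range] at hj hj'
    rw [Option.bind_eq_some_iff] at hj'
    obtain ⟨w, hw, hw'⟩ := hj'
    have := key k j n _ w (by omega) hw
    rw [this, encodek] at hw'
    exact h.2 n j v hw'

/-! ### Shifting instances -/

/-- Add a first value. -/
def cons (t : ℕ) (p : ℕ → ℕ) : ℕ → ℕ := fun n => Nat.casesOn n t p

/-- Drop the first value. -/
def shift (p : ℕ → ℕ) : ℕ → ℕ := fun n => p (n + 1)

theorem shift_cons (t : ℕ) (p : ℕ → ℕ) : shift (cons t p) = p := rfl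

/-- From a prefix of `⟨p, q⟩` to a prefix of `⟨shift p, q⟩`. -/
def reind (σ : List ℕ) : List ℕ :=
  (List.range (σ.length - 2)).map fun i => if i % 2 = 0 then σ.getD (i + 2) 0 else σ.getD i 0

theorem primrec_reind : Primrec reind := by
  refine Primrec.list_map (Primrec.list_range.comp (Primrec.nat_sub.comp Primrec.list_length
    (Primrec.const 2))) ?_
  refine Primrec.ite ?_ ?_ ?_
  · exact (PrimrecRel.comp Primrec.eq (Primrec.nat_mod.comp Primrec.snd (Primrec.const 2))
      (Primrec.const 0))
  · exact (Primrec.list_getD 0).comp Primrec.fst (Primrec.nat_add.comp Primrec.snd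
      (Primrec.const 2))
  · exact (Primrec.list_getD 0).comp Primrec.fst Primrec.snd

theorem getD_pre (p : ℕ → ℕ) {i k : ℕ} (h : i < k) : (pre p k).getD i 0 = p i := by
  rw [List.getD_eq_getElem _ _ (by rwa [length_pre])]
  simp [pre]

theorem reind_pre (p q : ℕ → ℕ) (k : ℕ) :
    reind (pre (pair p q) k) = pre (pair (shift p) q) (k - 2) := by
  unfold reind
  rw [length_pre]
  conv_rhs => rw [pre]
  apply List.map_congr_left
  intro i hi
  rw [List.mem_range] at hi
  rw [getD_pre _ (by omega), getD_pre _ (by omega)]
  unfold pair shift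
  split_ifs with h1
  · congr 1; omega
  · omega
  · rfl

/-! ### The theorem -/

/-- A reduction which selects its index from the first value of the instance. -/
def fwd (sel : ℕ → ℕ) (x : List ℕ × ℕ) : Option ℕ :=
  x.1.head?.bind fun t => univ (sel t) (x.1.tail, x.2)

/-- The backward part. -/
def bwd (sel : ℕ → ℕ) (x : List ℕ × ℕ) : Option ℕ :=
  x.1.head?.bind fun t => univ (sel t) (reind x.1, x.2)

theorem primrec_fwd {sel : ℕ → ℕ} (h : Primrec sel) : Primrec (fwd sel) :=
  Primrec.option_bind (Primrec.list_head?.comp Primrec.fst)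
    (primrec_univ.comp (Primrec.pair (h.comp Primrec.snd)
      (Primrec.pair (Primrec.list_tail.comp (Primrec.fst.comp Primrec.fst))
        (Primrec.snd.comp Primrec.fst))))

theorem primrec_bwd {sel : ℕ → ℕ} (h : Primrec sel) : Primrec (bwd sel) :=
  Primrec.option_bind (Primrec.list_head?.comp Primrec.fst)
    (primrec_univ.comp (Primrec.pair (h.comp Primrec.snd)
      (Primrec.pair (primrec_reind.comp (Primrec.fst.comp Primrec.fst))
        (Primrec.snd.comp Primrec.fst))))

theorem pre_succ (p : ℕ → ℕ) (k : ℕ) : pre p (k + 1) = p 0 :: pre (shift p) k := by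
  unfold pre shift
  rw [List.range_succ_eq_map]
  simp [Function.comp_def]

theorem computes_fwd {sel : ℕ → ℕ} {p z : ℕ → ℕ}
    (h : Computes (univ (sel (p 0))) (shift p) z) : Computes (fwd sel) p z := by
  constructor
  · intro n
    obtain ⟨k, hk⟩ := h.1 n
    exact ⟨k + 1, by simpa [fwd, pre_succ] using hk⟩
  · intro n k v hv
    cases k with
    | zero => simp [fwd, pre] at hv
    | succ k => exact h.2 n k v (by simpa [fwd, pre_succ] using hv)

theorem computes_bwd {sel : ℕ → ℕ} {p q r : ℕ → ℕ}
    (h : Computes (univ (sel (p 0))) (pair (shift p) q) r) :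
    Computes (bwd sel) (pair p q) r := by
  have hd : ∀ k, (pre (pair p q) (k + 1)).head? = some (p 0) := by
    intro k
    rw [pre_succ]
    simp [pair]
  constructor
  · intro n
    obtain ⟨k, hk⟩ := h.1 n
    refine ⟨k + 2, ?_⟩
    simp only [bwd, hd, Option.bind_some, reind_pre]
    exact hk
  · intro n k v hv
    cases k with
    | zero => simp [bwd, pre] at hv
    | succ k =>
      simp only [bwd, hd, Option.bind_some, reind_pre] at hv
      exact h.2 n _ v hv

/-- The list of pairs of naturals coded by `t`. -/
def dec (t : ℕ) : List (ℕ × ℕ) := Denumerable.ofNat (List (ℕ × ℕ)) t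

/-- The entry of the list coded by `t` which is used for `h m`, with a finite table for the short
lists. -/
def look (m : ℕ) (tab : List (ℕ × ℕ)) (t : ℕ) : ℕ × ℕ :=
  ((dec t)[m]?).getD (tab.getD ((dec t).length - 1) (0, 0))

theorem primrec_look (m : ℕ) (tab : List (ℕ × ℕ)) : Primrec (look m tab) := by
  have hd : Primrec dec := Primrec.ofNat _
  refine Primrec.option_getD.comp (Primrec.list_getElem?.comp hd (Primrec.const m)) ?_
  exact (Primrec.list_getD _).comp (Primrec.const tab)
    (Primrec.nat_sub.comp (Primrec.list_length.comp hd) (Primrec.const 1))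

/-- **Every chain of order type `ω + ω*` in the Weihrauch degrees has an intermediate degree.** -/
theorem result : ∀ f h : ℕ → Problem, (∀ n, WLT (f n) (f (n + 1))) →
    (∀ m, WLT (h (m + 1)) (h m)) → (∀ n m, WLT (f n) (h m)) →
    ∃ g : Problem, ∀ n, WLE (f n) g ∧ WLE g (h n) := by
  classical
  intro f h _ _ hfh
  -- the indices
  have hidx : ∀ n m, ∃ c d : ℕ, ∀ p, (f n p).Nonempty → ∃ z, Computes (univ c) p z ∧
      (h m z).Nonempty ∧ ∀ q ∈ h m z, ∃ r ∈ f n p, Computes (univ d) (pair p q) r := by
    intro n m
    obtain ⟨a, b, ha, hb, H⟩ := (hfh n m).1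
    obtain ⟨c, hc⟩ := exists_index ha
    obtain ⟨d, hd⟩ := exists_index hb
    refine ⟨c, d, fun p hp => ?_⟩
    obtain ⟨z, h1, h2, h3⟩ := H p hp
    refine ⟨z, computes_univ hc h1, h2, fun q hq => ?_⟩
    obtain ⟨r, hr, h4⟩ := h3 q hq
    exact ⟨r, hr, computes_univ hd h4⟩
  choose c d hcd using hidx
  -- the tags
  let L : ℕ → List (ℕ × ℕ) := fun n => (List.range (n + 1)).map fun m => (c n m, d n m)
  let T : ℕ → ℕ := fun n => encode (L n)
  have hT : ∀ n, dec (T n) = L n := fun n => Denumerable.ofNat_encode _
  have hlen : ∀ n, (L n).length = n + 1 := fun n => by simp [L]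
  have hinj : ∀ n m, T n = T m → n = m := by
    intro n m hnm
    have : L n = L m := by rw [← hT, ← hT, hnm]
    have := congrArg List.length this
    rw [hlen, hlen] at this
    omega
  let g : Problem := fun p => {y | ∃ n, p 0 = T n ∧ y ∈ f n (shift p)}
  have hg : ∀ n p, g (cons (T n) p) = f n p := by
    intro n p
    ext y
    constructor
    · rintro ⟨m, h1, h2⟩
      have := hinj n m h1
      subst this
      exact h2
    · intro hy
      exact ⟨n, rfl, hy⟩
  refine ⟨g, fun n => ⟨?_, ?_⟩⟩
  · -- `f n ≤ g`
    refine ⟨fun x => (T n :: x.1)[x.2]?, fun x => x.1[2 * x.2 + 1]?, ?_, ?_, ?_⟩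
    · exact (Primrec.list_getElem?.comp (Primrec.list_cons.comp (Primrec.const _) Primrec.fst)
        Primrec.snd).to_comp
    · exact (Primrec.list_getElem?.comp Primrec.fst (Primrec.nat_add.comp
        (Primrec.nat_mul.comp (Primrec.const 2) Primrec.snd) (Primrec.const 1))).to_comp
    · intro p hp
      refine ⟨cons (T n) p, ⟨fun k => ⟨k, ?_⟩, fun k l v hv => ?_⟩, by rwa [hg], fun q hq =>
        ⟨q, by rwa [hg] at hq, fun k => ⟨2 * k + 2, ?_⟩, fun k l v hv => ?_⟩⟩
      · rw [Option.isSome_iff_exists]
        refine ⟨_, List.getElem?_eq_getElem ?_⟩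
        simp [length_pre]
      · cases k with
        | zero =>
          simp only [List.getElem?_cons_zero, Option.some.injEq] at hv
          exact hv.symm
        | succ k =>
          simp only [List.getElem?_cons_succ, pre, List.getElem?_map] at hv
          rw [Option.map_eq_some_iff] at hv
          obtain ⟨i, hi, rfl⟩ := hv
          rw [List.getElem?_eq_some_iff] at hi
          obtain ⟨h1, rfl⟩ := hi
          simp [cons]
      · rw [Option.isSome_iff_exists]
        refine ⟨_, List.getElem?_eq_getElem ?_⟩
        simp [length_pre]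
      · simp only [pre, List.getElem?_map] at hv
        rw [Option.map_eq_some_iff] at hv
        obtain ⟨i, hi, rfl⟩ := hv
        rw [List.getElem?_eq_some_iff] at hi
        obtain ⟨h1, rfl⟩ := hi
        rw [List.getElem_range, pair, if_neg (by omega)]
        congr 1
        omega
  · -- `g ≤ h n`
    let tab : List (ℕ × ℕ) := (List.range n).map fun k => (c k n, d k n)
    have hlook : ∀ k, look n tab (T k) = (c k n, d k n) := by
      intro k
      unfold look
      rw [hT, hlen]
      by_cases hk : n < k + 1
      · have : (L k)[n]? = some (c k n, d k n) := by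
          simp only [L, List.getElem?_map, List.getElem?_range hk]
          rfl
        rw [this]
        rfl
      · have h1 : (L k)[n]? = none := by
          rw [List.getElem?_eq_none_iff, hlen]
          omega
        rw [h1, Option.getD_none]
        have h2 : k + 1 - 1 = k := rfl
        rw [h2, List.getD_eq_getElem _ _ (by simp only [tab, List.length_map, List.length_range];
                                             omega)]
        simp [tab]
    refine ⟨fwd fun t => (look n tab t).1, bwd fun t => (look n tab t).2, ?_, ?_, ?_⟩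
    · exact (primrec_fwd (Primrec.fst.comp (primrec_look n tab))).to_comp
    · exact (primrec_bwd (Primrec.snd.comp (primrec_look n tab))).to_comp
    · rintro p ⟨y, k, hk, hy⟩
      have hgp : g p = f k (shift p) := by
        ext y
        constructor
        · rintro ⟨m, h1, h2⟩
          have := hinj k m (hk.symm.trans h1)
          subst this
          exact h2
        · intro hy
          exact ⟨k, hk, hy⟩
      obtain ⟨z, h1, h2, h3⟩ := hcd k n (shift p) ⟨y, hy⟩
      refine ⟨z, computes_fwd ?_, h2, fun q hq => ?_⟩
      · rw [hk, hlook]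
        exact h1
      · obtain ⟨r, hr, h4⟩ := h3 q hq
        refine ⟨r, by rwa [hgp], computes_bwd ?_⟩
        rw [hk, hlook]
        exact h4

end Pool.Agent.Results.MP_2d238a_lc.Intermediate
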